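import Pool.Agent.P.MP_848074_co.Final

/-!
The Ramsey number of an even cycle versus a star, for stars up to exponential size.

A two-colouring of the complete graph on `p` vertices is a graph `G` (colour 1) together with its
complement (colour 2).
-/

namespace Pool.Agent.Results.MP_848074_co.CycleStarValue

open SimpleGraph

theorem result : ∀ m n b t : ℕ, Even m → 4 ≤ m → 10 ^ 40 * b ^ 8 ≤ m → 1 ≤ n →
    n + m ≤ 2 ^ b → t = (n - 1) / (m - 1) + 1 →
    ∃ r : ℕ, IsLeast {p : ℕ | 0 < p ∧ ∀ G : SimpleGraph (Fin p),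
        IsContained (cycleGraph m) G ∨
          IsContained (completeBipartiteGraph (Fin 1) (Fin n)) Gᶜ} r ∧
      max (t * (m - 1)) (n + (n - 1) / t) + 1 ≤ r ∧ r ≤ n + m - 1 ∧
      (2000 * m ≤ n → 300 * (n + m) ≤ m ^ 2 → r = max (t * (m - 1)) (n + (n - 1) / t) + 1) ∧
      ((m - 2) * (m - 3) ≤ n → r = n + m - 1) := by
  intro m n b t hm h4 hmb h0 hn ht
  have hup := RCS.upper_mem hm h4 hmb hn
  have hmem : sInf (RCS.RamSet m n) ∈ RCS.RamSet m n := Nat.sInf_mem ⟨_, hup⟩
  have hlo := RCS.lower_formula h4 h0 ht hmem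
  refine ⟨sInf (RCS.RamSet m n), ⟨hmem, fun p hp => Nat.sInf_le hp⟩, hlo, Nat.sInf_le hup,
    fun h1 h2 => le_antisymm (Nat.sInf_le (RCS.formula_mem hm h4 hmb hn h1 h2 ht)) hlo,
    fun h2 => le_antisymm (Nat.sInf_le hup) ?_⟩
  rcases RCS.lower_big h4 h2 hmem with h | h
  · exact h
  · have h8 : 1 ≤ b ^ 8 := Nat.one_le_pow _ _ (RCS.b_pos h4 hn)
    have e : (m - 2 - 1) * (m - 2) = n := by rw [h, mul_comm]; rfl
    have := RCS.lower_ring (j := m - 2) (p := sInf (RCS.RamSet m n)) h4 (by omega)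
      (by rw [e]; exact hmem)
    have e2 : (m - 2) * (m - 2) = (m - 2 - 1) * (m - 2) + (m - 2) := by
      rw [← Nat.add_one_mul]; congr 1; omega
    omega

end Pool.Agent.Results.MP_848074_co.CycleStarValue
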