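import Pool.Agent.P.MP_848074_co.Final

/-!
Exact values of the Ramsey number of an even cycle versus a star given by rings of cliques.

A two-colouring of the complete graph on `p` vertices is a graph `G` (colour 1) together with its
complement (colour 2).
-/

namespace Pool.Agent.Results.MP_848074_co.RingValue

open SimpleGraph

theorem result : ∀ m j b : ℕ, Even m → 4 ≤ m → 10 ^ 40 * b ^ 8 ≤ m → m < 2 * j →
    j * (m - 2) + 2 ≤ 2 ^ b →
    IsLeast {p : ℕ | 0 < p ∧ ∀ G : SimpleGraph (Fin p),
        IsContained (cycleGraph m) G ∨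
          IsContained (completeBipartiteGraph (Fin 1) (Fin ((j - 1) * (m - 2)))) Gᶜ}
      (j * (m - 2) + 1) := by
  intro m j b hm h4 hmb hj hn
  have e : j * (m - 2) = (j - 1) * (m - 2) + (m - 2) := by
    rw [← Nat.add_one_mul]; congr 1; omega
  have hup := RCS.upper_mem (n := (j - 1) * (m - 2)) hm h4 hmb (by omega)
  rw [show (j - 1) * (m - 2) + m - 1 = j * (m - 2) + 1 by omega] at hup
  exact ⟨hup, fun p hp => RCS.lower_ring h4 hj hp⟩

end Pool.Agent.Results.MP_848074_co.RingValue
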